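import Mathlib
import Pool.Agent.Helper278.RGFin

/-!
Rigid II₁ factors of arbitrarily large density: every nonzero star homomorphism from the factor to
its tracial ultrapowers is unital, and no projection other than `0` and `1` commutes with its range.
-/

set_option autoImplicit false

open scoped InnerProductSpace ComplexOrder BoundedContinuousFunction ComplexConjugate
open Filter Topology

namespace Pool.Agent.Y671.HU

open Pool.Agent.Helper278 Pool.Agent.Helper278.RG

universe u w

section cons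

variable {H : Type u} [NormedAddCommGroup H] [InnerProductSpace ℂ H] [CompleteSpace H]
variable {N : VonNeumannAlgebra H}

/-- A projection commuting with the range of a nonzero homomorphism is trivial. -/
theorem comm_proj {τ : Elt N → ℂ} (h : HomsUnital (M := Elt N) τ)
    {U : Ultrafilter ℕ} (hU : ∀ n, {n} ∉ U) {Q : Type u} [Ring Q] [StarRing Q] [Algebra ℂ Q]
    [StarModule ℂ Q] {π : (ℕ →ᵇ Elt N) →⋆ₐ[ℂ] Q} {σ : Q → ℂ} (hπ : IsTracialUltrapower τ U π σ)
    (f : Elt N →⋆ₙₐ[ℂ] Q) (hf : f 1 ≠ 0) {q : Q} (hq : IsStarProjection q)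
    (hc : ∀ x, f x * q = q * f x) : q = 0 ∨ q = 1 := by
  have hqq : q * q = q := hq.isIdempotentElem
  have hqs : star q = q := hq.isSelfAdjoint
  have hf1 : f 1 = 1 := h U hU Q π σ hπ f hf
  let g : Elt N →⋆ₙₐ[ℂ] Q :=
    { toFun := fun x => f x * q
      map_smul' := fun c x => by
        rw [map_smul, smul_mul_assoc]
        rfl
      map_zero' := by rw [map_zero, zero_mul]
      map_add' := fun x y => by rw [map_add, add_mul]
      map_mul' := fun x y => by
        rw [map_mul]
        calc f x * f y * q = f x * (f y * (q * q)) := by rw [hqq, mul_assoc]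
          _ = f x * ((f y * q) * q) := by rw [mul_assoc (f y)]
          _ = f x * ((q * f y) * q) := by rw [hc y]
          _ = f x * q * (f y * q) := by simp only [mul_assoc]
      map_star' := fun x => by
        rw [map_star, star_mul, hqs, ← map_star, hc] }
  have hg1 : g 1 = q := by
    show f 1 * q = q
    rw [hf1, one_mul]
  by_cases h0 : q = 0
  · exact Or.inl h0
  · right
    rw [← hg1]
    exact h U hU Q π σ hπ g (by rw [hg1]; exact h0)

/-- Every star homomorphism from a matrix algebra over the factor to the ultrapower is zero. -/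
theorem matrix_zero {τ : Elt N → ℂ} (h : HomsUnital (M := Elt N) τ)
    {U : Ultrafilter ℕ} (hU : ∀ n, {n} ∉ U) {Q : Type u} [Ring Q] [StarRing Q] [Algebra ℂ Q]
    [StarModule ℂ Q] {π : (ℕ →ᵇ Elt N) →⋆ₐ[ℂ] Q} {σ : Q → ℂ} (hπ : IsTracialUltrapower τ U π σ)
    {n : ℕ} (hn : 2 ≤ n) (Φ : Matrix (Fin n) (Fin n) (Elt N) →⋆ₙₐ[ℂ] Q)
    (X : Matrix (Fin n) (Fin n) (Elt N)) : Φ X = 0 := by
  classical
  have key : ∀ i, Φ (Matrix.single i i 1) = 0 := by
    intro i
    by_contra hne
    let f : Elt N →⋆ₙₐ[ℂ] Q :=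
      { toFun := fun x => Φ (Matrix.single i i x)
        map_smul' := fun c x => by
          rw [← Matrix.smul_single, map_smul]
          rfl
        map_zero' := by rw [Matrix.single_zero, map_zero]
        map_add' := fun x y => by rw [Matrix.single_add, map_add]
        map_mul' := fun x y => by rw [← single_mul_single i i i, map_mul]
        map_star' := fun x => by rw [← map_star, star_single] }
    have h1 : Φ (Matrix.single i i 1) = 1 := h U hU Q π σ hπ f hne
    obtain ⟨j, hj⟩ : ∃ j : Fin n, i ≠ j := by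
      by_cases h0 : i = ⟨0, by omega⟩
      · refine ⟨⟨1, by omega⟩, ?_⟩
        rw [h0]
        intro h2
        exact absurd (congrArg Fin.val h2) (by simp)
      · exact ⟨_, h0⟩
    have h2 : Φ (Matrix.single j j 1) = 0 := by
      have h3 : Φ (Matrix.single i i 1) * Φ (Matrix.single j j 1) = 0 := by
        rw [← map_mul, Matrix.single_mul_single_of_ne _ _ _ _ hj, map_zero]
      rwa [h1, one_mul] at h3
    have h4 : Φ (Matrix.single i i 1) = Φ (Matrix.single i j 1) * Φ (Matrix.single j j 1) *
        Φ (Matrix.single j i 1) := by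
      rw [← map_mul, ← map_mul, single_mul_single, single_mul_single, mul_one, mul_one]
    rw [h2, mul_zero, zero_mul] at h4
    exact hne h4
  have hX : X = ∑ i, X * Matrix.single i i 1 := by
    rw [← Finset.mul_sum]
    have : (∑ i : Fin n, Matrix.single i i (1 : Elt N)) = 1 := by
      ext a c
      rw [Matrix.sum_apply, Matrix.one_apply]
      by_cases hac : a = c
      · subst hac
        rw [if_pos rfl, Finset.sum_eq_single a]
        · simp [Matrix.single]
        · intro k _ hk
          simp [Matrix.single, hk]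
        · simp
      · rw [if_neg hac, Finset.sum_eq_zero]
        intro k _
        by_cases hk : k = a
        · subst hk
          simp [Matrix.single, hac]
        · simp [Matrix.single, hk]
    rw [this, mul_one]
  rw [hX, map_sum]
  refine Finset.sum_eq_zero fun i _ => ?_
  rw [map_mul, key, mul_zero]

end cons

section grp

variable (I₁ I₂ : Type)

theorem hP2g : ∀ τ, ∃ a b, a ≠ b ∧ ends I₁ I₂ τ = {a, b} := fun τ =>
  ⟨Sum.inl τ.1, Sum.inr τ.2, by simp, rfl⟩

theorem iccg [Uncountable (I₁ ⊕ I₂)] (g : Gp (ends I₁ I₂)) (hg : g ≠ 1) :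
    (Set.range fun h : Gp (ends I₁ I₂) => h * g * h⁻¹).Infinite :=
  icc _ (hP2g I₁ I₂) g hg

theorem infg [Infinite (I₁ ⊕ I₂)] : Infinite (Gp (ends I₁ I₂)) := by
  have h : Function.Injective (fun i : I₁ ⊕ I₂ => sg (ends I₁ I₂) i ^ (1 : ℤ)) :=
    sg_pow_injective _ one_ne_zero
  exact Infinite.of_injective _ h

end grp

section main

variable {I₁ I₂ : Type} [Uncountable (I₁ ⊕ I₂)]
variable {K : Type w} [NormedAddCommGroup K] [InnerProductSpace ℂ K] [CompleteSpace K]
  (b : HilbertBasis (Gp (ends I₁ I₂)) ℂ K)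

theorem factorg : IsIIOneFactor (LK b) (fun x => trG b x) := by
  have : Infinite (Gp (ends I₁ I₂)) := infg I₁ I₂
  exact isIIOne_LK b (iccg I₁ I₂)

theorem lyapg : LyapProp (TL b).τ :=
  lyapProp (TL b) (diffuse_of_factor (TL b) (factorg b).center (factorg b).infinite)

/-- Every nonzero star homomorphism from `M = L(G)` to its ultrapower is unital. -/
theorem hom_unitalg (c1 : Cardinal.continuum < Cardinal.mk I₁)
    (c2 : Cardinal.mk I₁ ^ Cardinal.aleph0 < Cardinal.mk I₂)
    {Q : Type w} [Ring Q] [StarRing Q] [Algebra ℂ Q] [StarModule ℂ Q]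
    {U : Ultrafilter ℕ} (hU : ∀ n, {n} ∉ U) {π : (ℕ →ᵇ Elt (LK b)) →⋆ₐ[ℂ] Q} {σ : Q → ℂ}
    (hπ : IsTracialUltrapower (TL b).τ U π σ) (f : Elt (LK b) →⋆ₙₐ[ℂ] Q) (h0 : f 1 ≠ 0) :
    f 1 = 1 := by
  have hS := sigma_trAlg hπ
  have he : star (f 1) = f 1 := by rw [← map_star, star_one]
  have hee : f 1 * f 1 = f 1 := by rw [← map_mul, one_mul]
  have hnn : (0 : ℂ) ≤ σ (f 1) := by
    have := hS.nonneg (f 1)
    rw [he, hee] at this
    exact this
  rw [Complex.nonneg_iff] at hnn
  have hsr : σ (f 1) = (((σ (f 1)).re : ℝ) : ℂ) := Complex.ext rfl hnn.2.symm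
  set t := (σ (f 1)).re with ht
  have htr : ∀ g, σ (f (La b g)) = σ (f 1) * trG b (La b g) := fun g =>
    trace_of_hom (T := TL b) (lyapg b) (factorg b).center hπ f (La b g)
  obtain ⟨x, hx⟩ := exists_approxRep b hU hπ (fun g => f (La b g))
    (fun g h => by rw [← map_mul, La_mul]) (fun g => by rw [← map_star, star_La])
    (fun g hg => by
      rw [htr]
      have : trG b (La b g) = 0 := by
        rw [trG_apply]
        show ⟪b 1, lamK b g (b 1)⟫_ℂ = 0
        rw [lamK_basis, mul_one]
        exact inner_bb b 1 g (Ne.symm hg)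
      rw [this, mul_zero]) (t := t) (by
      show σ (f (La b 1)) = (t : ℂ)
      rw [La_one]
      exact hsr)
  have hcore := core I₁ I₂ c1 c2 hx
  have ht0 : t ≠ 0 := by
    intro h
    apply h0
    apply hS.faithful
    show σ (star (f 1) * f 1) = 0
    rw [he, hee, hsr, h]
    rfl
  have ht1 : 1 ≤ t := by
    rcases hcore with h | h
    · exact absurd (le_antisymm h hnn.1) ht0
    · exact h
  have h2 : star (1 - f 1) * (1 - f 1) = 1 - f 1 := by
    rw [star_sub, star_one, he]
    have : (1 - f 1) * (1 - f 1) = 1 - f 1 - f 1 + f 1 * f 1 := by noncomm_ring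
    rw [this, hee]
    abel
  have h3 := hS.nonneg (1 - f 1)
  have hone : σ 1 = 1 := hS.one
  have h4 : σ (1 - f 1) = 1 - (t : ℂ) := by
    have : σ (1 - f 1) = σ 1 - σ (f 1) := map_sub (sigmaL hπ) _ _
    rw [this, hone, ← hsr]
  have h5 : (0 : ℂ) ≤ σ (1 - f 1) := by
    rw [h2] at h3
    exact h3
  rw [h4, Complex.nonneg_iff] at h5
  have h6 : 0 ≤ 1 - t := by simpa using h5.1
  have h7 : t = 1 := le_antisymm (by linarith) ht1
  have h8 : 1 - f 1 = 0 := by
    apply hS.faithful
    show σ (star (1 - f 1) * (1 - f 1)) = 0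
    rw [h2, h4, h7]
    norm_num
  exact (sub_eq_zero.1 h8).symm

theorem homsUnitalg (c1 : Cardinal.continuum < Cardinal.mk I₁)
    (c2 : Cardinal.mk I₁ ^ Cardinal.aleph0 < Cardinal.mk I₂) :
    HomsUnital (M := Elt (LK b)) (TL b).τ :=
  fun _ hU _ _ _ _ _ _ _ hπ f hf => hom_unitalg b c1 c2 hU hπ f hf

/-- The translation operators are orthogonal unitaries. -/
theorem La_orth (g h : Gp (ends I₁ I₂)) (hgh : g ≠ h) : (TL b).τ (star (La b g) * La b h) = 0 := by
  rw [star_La, La_mul, TL_apply, trG_apply]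
  show ⟪b 1, lamK b (g⁻¹ * h) (b 1)⟫_ℂ = 0
  rw [lamK_basis, mul_one]
  refine inner_bb b 1 _ (fun h1 => hgh ?_)
  have h2 := congrArg (fun z => g * z) h1
  simpa using h2

theorem La_unit (g : Gp (ends I₁ I₂)) : star (La b g) * La b g = 1 := by
  rw [star_La, La_mul, inv_mul_cancel, La_one]

theorem La_unit' (g : Gp (ends I₁ I₂)) : La b g * star (La b g) = 1 := by
  rw [star_La, La_mul, mul_inv_cancel, La_one]

end main

section card

variable (X : Type)

/-- a set of more than continuum many points that contains a copy of `X` -/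
abbrev J1 : Type := X ⊕ Set ℝ

/-- a larger set -/
abbrev J2 : Type := Set (Set (J1 X))

theorem cJ1 : Cardinal.continuum < Cardinal.mk (J1 X) := by
  have h1 : Cardinal.continuum < Cardinal.mk (Set ℝ) := card1
  refine lt_of_lt_of_le h1 ?_
  exact Cardinal.mk_le_of_injective Sum.inr_injective

theorem cJ2 : Cardinal.mk (J1 X) ^ Cardinal.aleph0 < Cardinal.mk (J2 X) := by
  have hinf : Cardinal.aleph0 ≤ Cardinal.mk (J1 X) :=
    (Cardinal.aleph0_lt_continuum.trans (cJ1 X)).le
  have h1 : Cardinal.mk (J1 X) ^ Cardinal.aleph0 ≤ Cardinal.mk (Set (J1 X)) := by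
    calc Cardinal.mk (J1 X) ^ Cardinal.aleph0
        ≤ (2 ^ Cardinal.mk (J1 X)) ^ Cardinal.aleph0 :=
          Cardinal.power_le_power_right (Cardinal.cantor _).le
      _ = 2 ^ (Cardinal.mk (J1 X) * Cardinal.aleph0) := by rw [← Cardinal.power_mul]
      _ = 2 ^ Cardinal.mk (J1 X) := by
          rw [Cardinal.mul_aleph0_eq hinf]
      _ = Cardinal.mk (Set (J1 X)) := Cardinal.mk_set.symm
  refine lt_of_le_of_lt h1 ?_
  rw [Cardinal.mk_set (α := Set (J1 X))]
  exact Cardinal.cantor _

instance : Uncountable (J1 X ⊕ J2 X) := by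
  have h : Uncountable (J1 X) := by
    rw [← Cardinal.aleph0_lt_mk_iff]
    exact Cardinal.aleph0_lt_continuum.trans (cJ1 X)
  exact Sum.inl_injective.uncountable

/-- the copy of `X` in the group -/
noncomputable def emb (x : X) : Gp (ends (J1 X) (J2 X)) :=
  sg (ends (J1 X) (J2 X)) (Sum.inl (Sum.inl x)) ^ (1 : ℤ)

theorem emb_injective : Function.Injective (emb X) := by
  intro x y h
  have h1 : Function.Injective (fun i => sg (ends (J1 X) (J2 X)) i ^ (1 : ℤ)) :=
    sg_pow_injective _ one_ne_zero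
  have h2 := h1 h
  exact Sum.inl_injective (Sum.inl_injective h2)

end card

end Pool.Agent.Y671.HU
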